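import Pool.Agent.R928.BP.Final

/-!
# MP_e8003b_pr: the speed of propagation of birth processes is not superadditive in the rate

In dimension `d = 1` there are admissible birth rates `b₁`, `b₂` with `s(b₁ + b₂) < s(b₁) + s(b₂)`:
`b₁ = 1[at least 2 particles within distance 1] + (1/100) 1[at least 1 particle within distance 1]`
and `b₂ = 1000 * 1[at least 1 particle within distance 1]`; one has `s(b₁) ≥ 1/4`, `s(b₂) ≥ 500` and
`s(b₁ + b₂) ≤ 500.249`.  The paper proof is by helper981 of the team.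
-/

set_option autoImplicit false

open MeasureTheory Set Filter Topology Pool.Agent.R928.BP

namespace Pool.Agent.Results.MP_e8003b_pr.NotSuperadditive

theorem result : ∃ b₁ b₂ : ℝ → Cfg → ℝ, Admissible b₁ ∧ Admissible b₂ ∧ Admissible (fun x η => b₁ x η + b₂ x η) ∧
    ∀ s₁ s₂ s : ℝ, IsSpeed b₁ s₁ → IsSpeed b₂ s₂ → IsSpeed (fun x η => b₁ x η + b₂ x η) s → s < s₁ + s₂ := by
  have e : (fun x η => rate 1 (1 / 100) x η + rate 0 1000 x η) = rate 1 (1 / 100 + 1000) := by
    funext x η
    unfold rate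
    ring
  refine ⟨rate 1 (1 / 100), rate 0 1000, rate_admissible zero_le_one (by norm_num), rate_admissible le_rfl (by norm_num), ?_, ?_⟩
  · rw [e]
    exact rate_admissible zero_le_one (by norm_num)
  · intro s₁ s₂ s h1 h2 h3
    rw [e] at h3
    have l1 : 1 / 4 ≤ s₁ := by
      obtain ⟨hs, r, hr, _, Ω, _, P, η, hP, H, hsh⟩ := h1
      refine speed_ge H zero_le_one (by norm_num) (kq_cont (-(1 / 2)) 0) (fun d => ?_) (shape_tendsto H hr hs hsh) (by norm_num) (fun ζ hζ => drift1 hζ)
      obtain ⟨c0, c1⟩ := cl_mem d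
      unfold kq
      rw [abs_le]
      constructor <;> nlinarith
    have l2 : 500 ≤ s₂ := by
      obtain ⟨hs, r, hr, _, Ω, _, P, η, hP, H, hsh⟩ := h2
      refine speed_ge H le_rfl (by norm_num) (kq_cont 0 0) (fun d => ?_) (shape_tendsto H hr hs hsh) (by norm_num) (fun ζ hζ => drift2 hζ)
      unfold kq
      norm_num
    have l3 : s ≤ 500249 / 1000 := by
      obtain ⟨hs, r, hr, _, Ω, _, P, η, hP, H, hsh⟩ := h3
      refine speed_le H zero_le_one (by norm_num) (kq_cont (-(9 / 10000)) (55 / 100000)) (fun d => ?_) (shape_tendsto H hr hs hsh) (by norm_num)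
        (fun ζ hζ => drift3 hζ) hs
      obtain ⟨c0, c1⟩ := cl_mem d
      unfold kq
      have c2 : cl d ^ 2 ≤ 1 := pow_le_one₀ c0 c1
      have c3 : 0 ≤ cl d ^ 2 := sq_nonneg _
      rw [abs_le]
      constructor <;> nlinarith
    linarith

end Pool.Agent.Results.MP_e8003b_pr.NotSuperadditive
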